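import Pool.Agent.H62.UC.Final

/-!
# MP_95f3e5_an, Q1: derivations with uniformly convergent heat semigroup are inner in `𝒰(M ⊗ M^op)`

`M` is a von Neumann algebra on `H` with a cyclic trace vector `Ω` of norm one: this is the standard
form, `H = L²(M, τ)`, `τ x = ⟪Ω, x Ω⟫`, `‖x‖₂ = ‖x Ω‖`.
`KH H` is the Hilbert space completion of `H ⊗ H`, i.e. `L²(M) ⊗ L²(M^op)`; the bimodule actions are
`lact x = x ⊗ 1` and `ract M Ω y = 1 ⊗ (right multiplication by y)`.
Commutants are `Set.centralizer`.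
-/

open scoped InnerProductSpace TensorProduct
open Filter Topology

namespace Pool.Agent.Results.MP_95f3e5_an.UniformlyConvergent

noncomputable section

/-- The bounded operators on the Hilbert space `H`. -/
def B (H : Type*) [NormedAddCommGroup H] [InnerProductSpace ℂ H] : Type _ := H →L[ℂ] H

/-- The Hilbert space tensor product `H ⊗ H`. -/
def KH (H : Type*) [NormedAddCommGroup H] [InnerProductSpace ℂ H] : Type _ :=
  UniformSpace.Completion (H ⊗[ℂ] H)

section

variable (H : Type*) [NormedAddCommGroup H] [InnerProductSpace ℂ H]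

instance instRingB : Ring (B H) := (ContinuousLinearMap.ring : Ring (H →L[ℂ] H))
instance instAlgB : Algebra ℂ (B H) := (ContinuousLinearMap.algebra : Algebra ℂ (H →L[ℂ] H))
instance instFunB : FunLike (B H) H H :=
  (ContinuousLinearMap.funLike : FunLike (H →L[ℂ] H) H H)
instance instStarB [CompleteSpace H] : StarRing (B H) :=
  (ContinuousLinearMap.instStarRingId : StarRing (H →L[ℂ] H))
instance instNormB : Norm (B H) := (ContinuousLinearMap.hasOpNorm : Norm (H →L[ℂ] H))

instance instNormedKH : NormedAddCommGroup (KH H) :=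
  UniformSpace.Completion.instNormedAddCommGroup (H ⊗[ℂ] H)
instance instInnerKH : InnerProductSpace ℂ (KH H) :=
  (UniformSpace.Completion.innerProductSpace :
    InnerProductSpace ℂ (UniformSpace.Completion (H ⊗[ℂ] H)))
instance instCompleteKH : CompleteSpace (KH H) :=
  UniformSpace.Completion.completeSpace (H ⊗[ℂ] H)

end

variable {H : Type*} [NormedAddCommGroup H] [InnerProductSpace ℂ H] [CompleteSpace H]
variable {K : Type*} [NormedAddCommGroup K] [InnerProductSpace ℂ K] [CompleteSpace K]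

/-- The elementary tensor `ξ ⊗ η`. -/
def tens (ξ η : H) : KH H := ((ξ ⊗ₜ[ℂ] η : H ⊗[ℂ] H) : UniformSpace.Completion (H ⊗[ℂ] H))

/-- `M` is a von Neumann algebra on `H` and `Ω` a cyclic trace vector of norm one for it. -/
structure IsStandard (M : Set (B H)) (Ω : H) : Prop where
  star_mem : ∀ x ∈ M, star x ∈ M
  bicommutant : Set.centralizer (Set.centralizer M) = M
  norm_one : ‖Ω‖ = 1
  trace : ∀ x ∈ M, ∀ y ∈ M, ⟪Ω, (x * y) Ω⟫_ℂ = ⟪Ω, (y * x) Ω⟫_ℂ
  cyclic : Dense {ξ : H | ∃ x ∈ M, x Ω = ξ}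

/-- Right multiplication by `y ∈ M` on `H = L²(M)`: the bounded operator `x Ω ↦ x y Ω`, `x ∈ M`. -/
def rmul (M : Set (B H)) (Ω : H) (y : B H) : B H :=
  open Classical in
  if h : ∃ T : B H, ∀ x ∈ M, T (x Ω) = (x * y) Ω then h.choose else 0

/-- The operator `x ⊗ 1` on `H ⊗ H`. -/
def lact (x : B H) : B (KH H) :=
  (TensorProduct.mapL (x : H →L[ℂ] H) (ContinuousLinearMap.id ℂ H)).completion

/-- The operator `1 ⊗ y` on `H ⊗ H`. -/
def rleg (y : B H) : B (KH H) :=
  (TensorProduct.mapL (ContinuousLinearMap.id ℂ H) (y : H →L[ℂ] H)).completion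

/-- The right action of `y ∈ M` on the coarse bimodule: `1 ⊗ y^op`. -/
def ract (M : Set (B H)) (Ω : H) (y : B H) : B (KH H) := rleg (rmul M Ω y)

/-- The von Neumann algebra `M ⊗ M^op` on `KH H`: the double commutant of the left and right
actions of `M`. -/
def MMop (M : Set (B H)) (Ω : H) : Set (B (KH H)) :=
  Set.centralizer (Set.centralizer
    ({A | ∃ x ∈ M, A = lact x} ∪ {A | ∃ y ∈ M, A = ract M Ω y}))

/-- `D` is a unital star subalgebra of the bounded operators. -/
structure IsStarAlg (D : Set (B H)) : Prop where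
  one_mem : (1 : B H) ∈ D
  add_mem : ∀ x ∈ D, ∀ y ∈ D, x + y ∈ D
  mul_mem : ∀ x ∈ D, ∀ y ∈ D, x * y ∈ D
  smul_mem : ∀ (c : ℂ), ∀ x ∈ D, c • x ∈ D
  star_mem : ∀ x ∈ D, star x ∈ D

/-- `d`, restricted to `D`, is a derivation: linear with `d (x y) = x · d y + d x · y`. -/
structure IsDerivation (M : Set (B H)) (Ω : H) (D : Set (B H)) (d : B H → KH H) : Prop where
  map_add : ∀ x ∈ D, ∀ y ∈ D, d (x + y) = d x + d y
  map_smul : ∀ (c : ℂ), ∀ x ∈ D, d (c • x) = c • d x
  leibniz : ∀ x ∈ D, ∀ y ∈ D, d (x * y) = lact x (d y) + ract M Ω y (d x)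

/-- The graph `{(x Ω, d x) : x ∈ D}` of `d` as a densely defined operator `L²(M) → KH H`. -/
def graph (Ω : H) (D : Set (B H)) (d : B H → KH H) : Set (H × KH H) :=
  {q | ∃ x ∈ D, q = (x Ω, d x)}

/-- The closure of `G ⊆ H × K` is the graph of an operator: `G` is closable. -/
def IsClosable (G : Set (H × K)) : Prop := ∀ ξ : K, ((0 : H), ξ) ∈ closure G → ξ = 0

/-- The involution of `D` is bounded for the graph norm of `d`; true for every real derivation. -/
def IsStarBounded (Ω : H) (D : Set (B H)) (d : B H → KH H) : Prop :=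
  ∃ C : ℝ, ∀ x ∈ D, ‖d (star x)‖ ≤ C * (‖d x‖ + ‖x Ω‖)

/-- For `G` the graph of a densely defined closable operator `∂`: `ξ` is in the domain of
`Δ = ∂* ∂̄` and `Δ ξ = ω`. -/
def IsDelta (G : Set (H × K)) (ξ ω : H) : Prop :=
  ∃ ζ : K, (ξ, ζ) ∈ closure G ∧ ∀ p ∈ G, ⟪ζ, p.2⟫_ℂ = ⟪ω, p.1⟫_ℂ

/-- `S` is the heat semigroup `S t = exp (-t Δ)`, `Δ = ∂* ∂̄`, of the closable operator `∂` with
graph `G`: a strongly continuous semigroup of contractions whose generator is `-Δ`. -/
structure Heat (G : Set (H × K)) (S : ℝ → B H) : Prop where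
  zero : S 0 = 1
  add : ∀ s t, 0 ≤ s → 0 ≤ t → S (s + t) = S s * S t
  contr : ∀ t, 0 ≤ t → ‖S t‖ ≤ 1
  cont : ∀ ξ, Tendsto (fun t => S t ξ) (𝓝[>] 0) (𝓝 ξ)
  gen : ∀ ξ ω, Tendsto (fun t : ℝ => ((t : ℂ)⁻¹) • (ξ - S t ξ)) (𝓝[>] 0) (𝓝 ω) ↔ IsDelta G ξ ω

/-- `S t → 1` uniformly in `‖·‖₂` on the unit ball of `M`, as `t → 0+`. -/
def UniformlyToOne (M : Set (B H)) (Ω : H) (S : ℝ → B H) : Prop :=
  ∀ ε : ℝ, 0 < ε → ∃ t₀ : ℝ, 0 < t₀ ∧ ∀ t : ℝ, 0 < t → t ≤ t₀ → ∀ g ∈ M, ‖g‖ ≤ 1 →
    ‖S t (g Ω) - g Ω‖ ≤ ε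

/-- `η` is the graph of a closed densely defined operator affiliated with the von Neumann algebra
`N` (it commutes with every element of the commutant). -/
structure Affil (N : Set (B K)) (η : Submodule ℂ (K × K)) : Prop where
  closed : IsClosed (η : Set (K × K))
  inv : ∀ u ∈ Set.centralizer N, ∀ p ∈ η, (u p.1, u p.2) ∈ η
  dense : Dense {ζ : K | ∃ ω, (ζ, ω) ∈ η}
  sv : ∀ ω : K, ((0 : K), ω) ∈ η → ω = 0

/-- The closed operator of left multiplication by the vector `v ∈ L²(N)`, affiliated with `N`, where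
`w` is the trace vector: the closure of `u w ↦ u v`, `u` in the commutant of `N`. -/
def leftMul (N : Set (B K)) (w v : K) : Set (K × K) :=
  closure {p | ∃ u ∈ Set.centralizer N, p = (u w, u v)}

/-- The product `(x ⊗ 1 - 1 ⊗ x^op) η` in the algebra of affiliated operators: the closure of the
composed operator. -/
def comm (M : Set (B H)) (Ω : H) (x : B H) (η : Submodule ℂ (KH H × KH H)) : Set (KH H × KH H) :=
  closure {p | ∃ q ∈ η, p = (q.1, lact x q.2 - ract M Ω x q.2)}

theorem result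
    -- a finite von Neumann algebra in standard form
    (M : Set (B H)) (Ω : H) (hM : IsStandard M Ω)
    -- a weakly dense unital star subalgebra: `D'' = M`
    (D : Set (B H)) (hD : IsStarAlg D) (hDM : Set.centralizer (Set.centralizer D) = M)
    -- a derivation into the coarse bimodule, closable, star-bounded
    (d : B H → KH H) (deriv : IsDerivation M Ω D d) (closable : IsClosable (graph Ω D d))
    (hstar : IsStarBounded Ω D d)
    -- the heat semigroup converges uniformly on the unit ball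
    (S : ℝ → B H) (heat : Heat (graph Ω D d) S) (unif : UniformlyToOne M Ω S) :
    -- there is `η` affiliated with `M ⊗ M^op` such that `d x = (x ⊗ 1 - 1 ⊗ x^op) η`, `x ∈ D`
    ∃ η : Submodule ℂ (KH H × KH H), Affil (MMop M Ω) η ∧
      ∀ x ∈ D, comm M Ω x η = leftMul (MMop M Ω) (tens Ω Ω) (d x) := by
  have hρ : ∀ x ∈ M, ∀ y ∈ M, rmul M Ω y (x Ω) = (x * y) Ω := by
    intro x hx y hy
    have h : ∃ T : B H, ∀ x ∈ M, T (x Ω) = (x * y) Ω :=
      Pool.H62.UC.exists_rho M hM.star_mem hM.bicommutant Ω hM.norm_one hM.trace hM.cyclic y hy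
    unfold rmul
    rw [dif_pos h]
    exact h.choose_spec x hx
  let D' : StarSubalgebra ℂ (H →L[ℂ] H) :=
    { carrier := D
      mul_mem' := fun {x y} hx hy => hD.mul_mem x hx y hy
      one_mem' := hD.one_mem
      add_mem' := fun {x y} hx hy => hD.add_mem x hx y hy
      zero_mem' := by
        have h := hD.smul_mem 0 1 hD.one_mem
        rwa [zero_smul] at h
      algebraMap_mem' := fun c => by
        have h := hD.smul_mem c 1 hD.one_mem
        rw [Algebra.algebraMap_eq_smul_one]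
        exact h
      star_mem' := fun {x} hx => hD.star_mem x hx }
  let d' : D' →ₗ[ℂ] Pool.H62.UC.KK H :=
    { toFun := fun x => d x.1
      map_add' := fun x y => deriv.map_add x.1 x.2 y.1 y.2
      map_smul' := fun c x => deriv.map_smul c x.1 x.2 }
  have hG : {q : H × Pool.H62.UC.KK H | ∃ x : D', q = ((x : H →L[ℂ] H) Ω, d' x)} =
      graph Ω D d := by
    ext q
    constructor
    · rintro ⟨x, rfl⟩
      exact ⟨x.1, x.2, rfl⟩
    · rintro ⟨x, hx, rfl⟩
      exact ⟨⟨x, hx⟩, rfl⟩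
  obtain ⟨C, hC⟩ := hstar
  obtain ⟨η, h1, h2, h3, h4, h5⟩ := Pool.H62.UC.final M hM.star_mem hM.bicommutant Ω hM.norm_one
    hM.trace hM.cyclic (rmul M Ω) hρ D' hDM d' (fun x y => deriv.leibniz x.1 x.2 y.1 y.2)
    (by rw [hG]; exact closable) C (fun x => hC x.1 x.2) S
    (by rw [hG]; exact ⟨heat.zero, heat.add, heat.contr, heat.cont, heat.gen⟩) unif
  exact ⟨η, ⟨h1, h2, h3, h4⟩, fun x hx => h5 ⟨x, hx⟩⟩

end

end Pool.Agent.Results.MP_95f3e5_an.UniformlyConvergent
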